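import Pool.Agent.H629.AF.Trans

/-!
# MP_084d61_lc, Q1: the statement (E) is a theorem of ZF

(E): for every additive filter `F` on `ℕ = {1, 2, 3, …}` and every `B ⊆ ℕ` there is an additive
filter `G ⊇ F` with `B ∈ G` or `ℕ \ B ∈ G`. We show that (E) holds in every model of Zermelo set
theory, hence in every model of ZF; by the completeness theorem it is a theorem of ZF.

Outline of the proof. If some filter above `F` is in no ultrafilter, then so is one which
decides `B`, and it is vacuously additive. So let every filter above `F` be in an ultrafilter.
For an ultrafilter `V` and `x ⊆ ω` let `V·x` be the set of `n` such that `m + n ∈ x` for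
`V`-almost all `m`. For an additive `G ⊇ F` the set `O(G, x)` of all `V·x` with `V ⊇ G` is closed
and can be defined without ultrafilters. Let `y` be the lexicographically greatest element of
`O(G, B)`. If `y` is not in `O(G, y)`, then the ultrafilters `V ⊇ G` with `V·B` in `O(G, y)` are
those above a filter `G' ⊇ G`, which is proper and additive, and `G' ≠ G`. If `y` is in `O(G, y)`,
then the ultrafilters `V ⊇ G` with `V·y = y` are those above a proper additive filter `G' ⊇ G`.
This defines a map `G ↦ G'`; by the Bourbaki-Witt theorem, which is proved inside the model
without choice, it has a fixed point `G`. Then `V·y = y` for all `V ⊇ G`, so that the ultrafilters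
`V ⊇ G` with `V·B = y` are those above a proper additive filter, and this filter decides `B`.
-/

namespace Pool.Agent.Results.MP_084d61_lc.ExtensionTheoremZF

open Pool.Agent.Helper672.Plain Pool.Agent.H629.AF

universe u

/-- In every model of Zermelo set theory, in particular in every model of ZF, every additive
filter on `ℕ` extends, for every `B ⊆ ℕ`, to an additive filter which contains `B` or `ℕ \ B`. -/
theorem result (M : Type u) [LSet.Structure M] [Zermelo M] : StatementE M := statementE

end Pool.Agent.Results.MP_084d61_lc.ExtensionTheoremZF
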